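import Pool.Agent.Q65.Horse28d764

/-!
# MP_28d764_an: non-convergent solutions of a third-order rational recurrence

There are positive parameters (a set of parameters with nonempty interior in `(γ, D)`) and a bounded
positive solution which converges to no periodic sequence.
-/

set_option autoImplicit false

namespace Pool.Agent.Results.MP_28d764_an.Chaotic

open Filter Topology

/-- the right hand side `F(u, v, w) = (α + u + γ v + δ w) / (u + C v + D w)` -/
noncomputable def F (α γ δ C D u v w : ℝ) : ℝ :=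
  (α + u + γ * v + δ * w) / (u + C * v + D * w)

/-- `x` is a solution of `x_{n+1} = F(x_n, x_{n-1}, x_{n-2})` with positive initial values; the
index is shifted by two, so `x 0, x 1, x 2` stand for `x_{-2}, x_{-1}, x_0` -/
def IsSolution (α γ δ C D : ℝ) (x : ℕ → ℝ) : Prop :=
  0 < x 0 ∧ 0 < x 1 ∧ 0 < x 2 ∧ ∀ n, x (n + 3) = F α γ δ C D (x (n + 2)) (x (n + 1)) (x n)

/-- **There are `α, δ, C, ε > 0` such that for all `γ, D ∈ (0, ε]` there is a bounded positive
solution which does not converge and whose distance to every periodic sequence does not tend to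
zero** (the proof takes `α = C = exp 1080`, `δ = exp 960`, `ε = exp (-5000)`). -/
theorem result : ∃ α δ C ε : ℝ, 0 < α ∧ 0 < δ ∧ 0 < C ∧ 0 < ε ∧ ∀ γ D : ℝ, 0 < γ → γ ≤ ε → 0 < D →
    D ≤ ε → ∃ x : ℕ → ℝ, IsSolution α γ δ C D x ∧
      BddAbove (Set.range x) ∧ (∀ L, ¬ Tendsto x atTop (𝓝 L)) ∧
      ∀ (p : ℕ → ℝ) (k : ℕ), 0 < k → (∀ n, p (n + k) = p n) →
        ¬ Tendsto (fun n => x n - p n) atTop (𝓝 0) := by
  refine ⟨Real.exp 1080, Real.exp 960, Real.exp 1080, Real.exp (-5000), Real.exp_pos _,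
    Real.exp_pos _, Real.exp_pos _, Real.exp_pos _, ?_⟩
  intro γ D hγ0 hγ hD0 hD
  obtain ⟨x, hpos, hx, ⟨R, hR⟩, hper⟩ := Q65.Horse28d764.exists_sol' hγ0.le hγ hD0.le hD
  refine ⟨x, ⟨hpos 0, hpos 1, hpos 2, hx⟩, ⟨R, ?_⟩, ?_, hper⟩
  · rintro _ ⟨n, rfl⟩
    exact hR n
  · intro L h
    refine hper (fun _ => L) 1 one_pos (fun _ => rfl) ?_
    have := h.sub_const L
    simpa using this

end Pool.Agent.Results.MP_28d764_an.Chaotic
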